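import Pool.Agent.Helper34.PM.SIEW
import Pool.Agent.Helper42.TN.GoalsA

/-!
# Packet TN-SIEN (project TN, MP_a41896_nt): the conditions can be solved

Adapted from `Pool/Agent/Helper34/PM/SIEW.lean` and `Pool/Agent/Helper64/VN/SIEB.lean`.
-/

set_option autoImplicit false

open MvPolynomial

namespace Pool.Agent.Helper22.TN

open WeierstrassCurve Height NumberField
open Pool.Agent.Helper29.BL Pool.Agent.Helper92.Ru Pool.Agent.Helper42.SG
open Pool.Agent.Helper77.SGC (N0)
open Pool.Agent.Helper68.VN hiding xs Good nz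
open Pool.Agent.Helper64.VN
open Pool.Agent.Helper19.PM
open Pool.Agent.Helper34.PM
open Pool.Agent.Helper42.TN

noncomputable section

lemma house_prod {K : Type} [Field K] [NumberField K] {ι : Type} (s : Finset ι) (f : ι → K)
    (B : ι → ℝ) (h : ∀ i ∈ s, house (f i) ≤ B i) : house (∏ i ∈ s, f i) ≤ ∏ i ∈ s, B i := by
  classical
  induction s using Finset.induction_on with
  | empty =>
    rw [Finset.prod_empty, Finset.prod_empty]
    exact Pool.Agent.Helper68.Ru.house_one_le K
  | insert a s ha ih =>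
    rw [Finset.prod_insert ha, Finset.prod_insert ha]
    refine (house_mul_le _ _).trans (mul_le_mul (h a (Finset.mem_insert_self _ _))
      (ih fun i hi => h i (Finset.mem_insert_of_mem hi)) (house_nonneg _)
      ((house_nonneg _).trans (h a (Finset.mem_insert_self _ _))))

section entry

variable {K : Type} [Field K] {σ : Type} [Fintype σ] [DecidableEq σ]

/-- the Siegel matrix over `K`. -/
def entN (D : ℕ) (M : ℕ) (S : σ → ℕ → Bool → Fin 2 → ℕ → ℕ → ℕ → ℕ → K) {n k0 : ℕ}
    (d : Fin n → ℕ) {e : Fin n → ℕ}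
    {T : Fin n → Type} {gr : ∀ j, T j → ℕ} (r : ∀ j, T j → (σ → ℕ) → K) {U : Type}
    (ν : U → (σ → ℕ) → K) (w : RowsN σ n k0 e T gr U) (u : Ix σ n M 1 e) : K :=
  ∑ p ∈ Fintype.piFinset fun _ : Fin n => box σ (2 * M),
    (∏ j, (den K σ D (d j) M (e j) *
      Gam S M (e j) (r j (w.2.2.1.val j)) (w.1 j) (w.2.1 j) (p j) (u.1 j))) *
      ν w.2.2.2 (fun i => ∑ j, p j i)

end entry

theorem t_SIEN (h1 : CARDN) : Pool.Agent.Helper42.TN.SIEN := by
  intro K _ _ σ _ _ W B D c hB hD n M k0 h0 S0 a0 hn hm2 hh0 hcount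
  classical
  set m := Fintype.card σ with hm
  obtain ⟨c1, hc1, hSi⟩ := Pool.Agent.Helper68.Ru.siegel K
  have hDr : (1 : ℝ) ≤ (D : ℝ) := by exact_mod_cast hD
  set b0 : ℝ := ∑ φ : K →+* ℂ, (2 : ℝ) ^ Fintype.card σ * (D * B (place φ)) with hb0def
  have hterm1 : ∀ φ : K →+* ℂ, 1 ≤ (2 : ℝ) ^ Fintype.card σ * (D * B (place φ)) := fun φ =>
    one_le_mul_of_one_le_of_one_le (one_le_pow₀ (by norm_num))
      (one_le_mul_of_one_le_of_one_le hDr (hB _))
  have hbφ : ∀ φ : K →+* ℂ, (2 : ℝ) ^ Fintype.card σ * (D * B (place φ)) ≤ b0 := fun φ =>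
    Finset.single_le_sum
      (f := fun φ : K →+* ℂ => (2 : ℝ) ^ Fintype.card σ * (D * B (place φ)))
      (fun φ _ => zero_le_one.trans (hterm1 φ)) (Finset.mem_univ φ)
  have hb0 : 1 ≤ b0 := by
    obtain ⟨φ⟩ : Nonempty (K →+* ℂ) := inferInstance
    exact (hterm1 φ).trans (hbφ φ)
  set κ : ℕ := (2 * M + 2) * (m + 1) with hκ
  set G0 : ℝ := (((2 * M + 1 : ℕ) : ℝ) ^ m) ^ n with hG
  have hG1 : 1 ≤ G0 := one_le_pow₀ (one_le_pow₀ (by
    push_cast; linarith [Nat.cast_nonneg (α := ℝ) M]))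
  set Q : ℝ := c1 * c1 * ((M : ℝ) + 1) ^ (n * m) * G0 with hQ
  have hM1 : (1 : ℝ) ≤ (M : ℝ) + 1 := by linarith [Nat.cast_nonneg (α := ℝ) M]
  have hQ1 : 1 ≤ Q := one_le_mul_of_one_le_of_one_le
    (one_le_mul_of_one_le_of_one_le (one_le_mul_of_one_le_of_one_le hc1 hc1)
      (one_le_pow₀ hM1)) hG1
  have hlQ := Real.log_nonneg hQ1
  have hlb := Real.log_nonneg hb0
  refine ⟨Real.log Q + n * m + κ * Real.log b0 + n * (4 * M + 4), by positivity, ?_⟩
  intro e d G L S T _ gr E r U _ ν x0 g H hsl hL0 hS hcen hU hH0 hred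
  have hg0 : ∀ j v, 1 ≤ G j v := fun j v => (hsl.plc j).one_le v
  have hsq : 1 ≤ sqB e :=
    (Nat.one_le_pow _ _ (by norm_num)).trans (sq_ge e (⟨0, hn⟩ : Fin n))
  have hsqr : (1 : ℝ) ≤ (sqB e : ℝ) := by exact_mod_cast hsq
  -- integrality
  have hint : ∀ (w : RowsN σ n k0 e T gr U) (u : Ix σ n M 1 e),
      IsIntegral ℤ (entN D M S d r ν w u) := by
    intro w u
    unfold entN
    refine IsIntegral.sum _ fun p _ => IsIntegral.mul (IsIntegral.prod _ fun j _ => ?_)
      (hred.int _ _)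
    exact int_gam hS (d j) (e j) _ (fun s => (hcen j).int _ s) _ _ _ _
  -- the matrix
  set a : Matrix (RowsN σ n k0 e T gr U) {α : Ix σ n M 1 e // SupN a0 h0 α} (𝓞 K) :=
    fun w u => ⟨entN D M S d r ν w u.1, hint w u.1⟩ with ha
  have hacoe : ∀ w u, ((a w u : 𝓞 K) : K) = entN D M S d r ν w u.1 := fun w u => rfl
  have hE1 : (1 : ℝ) ≤ Real.exp (n * ((4 * M + 4) * L)) := Real.one_le_exp (by positivity)
  have hA1 : (1 : ℝ) ≤ G0 * (b0 ^ (κ * sqB e) * Real.exp (n * ((4 * M + 4) * L))) *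
      Real.exp H :=
    one_le_mul_of_one_le_of_one_le (one_le_mul_of_one_le_of_one_le hG1
      (one_le_mul_of_one_le_of_one_le (one_le_pow₀ hb0) hE1)) (Real.one_le_exp hH0)
  have hhouse : ∀ w u, house ((a w u : 𝓞 K) : K) ≤
      G0 * (b0 ^ (κ * sqB e) * Real.exp (n * ((4 * M + 4) * L))) * Real.exp H := by
    intro w u
    rw [hacoe]
    unfold entN
    refine (house_sum_le_sum_house _ _).trans ?_
    have hterm : ∀ p ∈ Fintype.piFinset fun _ : Fin n => box σ (2 * M),
        house ((∏ j, (den K σ D (d j) M (e j) *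
          Gam S M (e j) (r j (w.2.2.1.val j)) (w.1 j) (w.2.1 j) (p j) (u.1.1 j))) *
          ν w.2.2.2 (fun i => ∑ j, p j i)) ≤
        (b0 ^ (κ * sqB e) * Real.exp (n * ((4 * M + 4) * L))) * Real.exp H := by
      intro p _
      refine (house_mul_le _ _).trans (mul_le_mul ?_ (hred.hs _ _) (house_nonneg _)
        (by positivity))
      refine (house_prod _ _ (fun j => b0 ^ (κ * 4 ^ e j) * Real.exp ((4 * M + 4) * L))
        fun j _ => ?_).trans ?_
      · refine (house_gamW hS hB (G j) (hg0 j) (d j) (e j) hD (hsl.pos j) _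
          (fun v s => (hcen j).bd v _ s) b0 L hbφ (hsl.den j) (hsl.arch j) _ _ _ _).trans
          (le_of_eq ?_)
        rw [mul_comm (4 ^ e j), hκ, hm]
      · rw [Finset.prod_mul_distrib, Finset.prod_pow_eq_pow_sum, ← Finset.mul_sum,
          Finset.prod_const, Finset.card_univ, Fintype.card_fin, ← Real.exp_nat_mul]
        exact le_of_eq rfl
    refine (Finset.sum_le_card_nsmul _ _ _ hterm).trans ?_
    rw [nsmul_eq_mul, Fintype.card_piFinset, Finset.prod_const, Finset.card_univ,
      Fintype.card_fin, card_box, ← hm, hG]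
    push_cast
    exact le_of_eq (by ring)
  have hne : Nonempty {α : Ix σ n M 1 e // SupN a0 h0 α} := by
    refine ⟨⟨(fun h => fun _ => (⟨0, by positivity⟩, ⟨0, by omega⟩), fun _ => ⟨0, by omega⟩),
      fun j => ⟨rfl, fun i => ?_⟩⟩⟩
    show 0 * h0 < 4 ^ e j
    rw [zero_mul]
    positivity
  have hcd := h1 σ n M k0 c h0 S0 a0 e T gr U hn hm2 hh0 (fun j => (hcen j).card)
    (fun j => (hcen j).bad (k0 * 4 ^ e j)) hU hcount
  rw [Nat.card_eq_fintype_card, Nat.card_eq_fintype_card] at hcd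
  obtain ⟨ξ, hξ0, hξ, hξb⟩ := hSi (RowsN σ n k0 e T gr U) {α : Ix σ n M 1 e // SupN a0 h0 α} a
    (G0 * (b0 ^ (κ * sqB e) * Real.exp (n * ((4 * M + 4) * L))) * Real.exp H) hA1 hcd
    (Fintype.card_pos_iff.2 hne) hhouse
  -- the bound
  have hC0 : (0 : ℝ) ≤ (Real.log Q + n * m + κ * Real.log b0 + n * (4 * M + 4)) *
      (sqB e + H + L) := by positivity
  have hbound : ∀ y, house ((ξ y : 𝓞 K) : K) ≤
      Real.exp ((Real.log Q + n * m + κ * Real.log b0 + n * (4 * M + 4)) *
        (sqB e + H + L)) := by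
    intro y
    refine (hξb y).trans ?_
    -- the number of unknowns
    have hcard0 : (Fintype.card {α : Ix σ n M 1 e // SupN a0 h0 α} : ℝ) ≤
        (Fintype.card (Ix σ n M 1 e) : ℝ) := by
      exact_mod_cast Fintype.card_subtype_le _
    have hcard : (Fintype.card (Ix σ n M 1 e) : ℝ) ≤
        Real.exp (n * m * sqB e) * ((M : ℝ) + 1) ^ (n * m) := by
      have h3 : Fintype.card (Ix σ n M 1 e) = ∏ h : Fin n, (4 ^ e h * (M + 1)) ^ m := by
        rw [Fintype.card_prod, Fintype.card_pi, Fintype.card_fun, Fintype.card_fin, one_pow,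
          mul_one]
        refine Finset.prod_congr rfl fun h _ => ?_
        rw [Fintype.card_fun, Fintype.card_prod, Fintype.card_fin, Fintype.card_fin]
      rw [h3]
      push_cast
      simp only [mul_pow]
      rw [Finset.prod_mul_distrib, Finset.prod_const, Finset.card_univ, Fintype.card_fin,
        ← pow_mul, mul_comm m n]
      have h4 : ∏ h : Fin n, ((4 : ℝ) ^ e h) ^ m ≤
          ∏ _h : Fin n, (Real.exp (sqB e)) ^ m := by
        refine Finset.prod_le_prod (fun _ _ => by positivity) fun h _ => ?_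
        refine pow_le_pow_left₀ (by positivity) ?_ _
        have h6 : (4 : ℝ) ^ e h ≤ (sqB e : ℝ) := by exact_mod_cast sq_ge e h
        have h7 := Real.add_one_le_exp (sqB e : ℝ)
        linarith
      rw [Finset.prod_const, Finset.card_univ, Fintype.card_fin, ← pow_mul, ← Real.exp_nat_mul]
        at h4
      have h8 : (((m * n : ℕ) : ℝ) * (sqB e : ℝ)) = (n : ℝ) * m * sqB e := by
        push_cast; ring
      rw [h8] at h4
      exact mul_le_mul_of_nonneg_right h4 (by positivity)
    have hb : b0 ^ (κ * sqB e) = Real.exp (κ * Real.log b0 * sqB e) := by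
      rw [← Real.exp_log (show (0 : ℝ) < b0 by linarith), ← Real.exp_nat_mul, Real.exp_log
        (show (0 : ℝ) < b0 by linarith)]
      congr 1
      push_cast
      ring
    have hQe : Q ≤ Real.exp (Real.log Q * sqB e) := by
      calc Q = Real.exp (Real.log Q * 1) := by
            rw [mul_one, Real.exp_log (by linarith)]
        _ ≤ Real.exp (Real.log Q * sqB e) :=
            Real.exp_le_exp.2 (mul_le_mul_of_nonneg_left hsqr hlQ)
    calc c1 * (c1 * (Fintype.card {α : Ix σ n M 1 e // SupN a0 h0 α} : ℝ) *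
          (G0 * (b0 ^ (κ * sqB e) * Real.exp (n * ((4 * M + 4) * L))) * Real.exp H))
        ≤ c1 * (c1 * (Real.exp (n * m * sqB e) * ((M : ℝ) + 1) ^ (n * m)) *
            (G0 * (b0 ^ (κ * sqB e) * Real.exp (n * ((4 * M + 4) * L))) * Real.exp H)) := by
          have : 0 ≤ c1 := by linarith
          have : 0 ≤ G0 := by linarith
          have h10 := hcard0.trans hcard
          gcongr
      _ = Q * (Real.exp (n * m * sqB e) * b0 ^ (κ * sqB e) * Real.exp (n * ((4 * M + 4) * L)) *
            Real.exp H) := by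
          rw [hQ]
          ring
      _ ≤ Real.exp (Real.log Q * sqB e) *
            (Real.exp (n * m * sqB e) * b0 ^ (κ * sqB e) * Real.exp (n * ((4 * M + 4) * L)) *
              Real.exp H) :=
          mul_le_mul_of_nonneg_right hQe (by positivity)
      _ = Real.exp ((Real.log Q + n * m + κ * Real.log b0) * sqB e +
            n * ((4 * M + 4) * L) + H) := by
          rw [hb, ← Real.exp_add, ← Real.exp_add, ← Real.exp_add, ← Real.exp_add]
          congr 1
          ring
      _ ≤ Real.exp ((Real.log Q + n * m + κ * Real.log b0 + n * (4 * M + 4)) *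
            (sqB e + H + L)) := by
          refine Real.exp_le_exp.2 ?_
          have h9 : 0 ≤ Real.log Q + n * m + κ * Real.log b0 := by positivity
          have hMr : (0 : ℝ) ≤ M := Nat.cast_nonneg M
          have hnr : (1 : ℝ) ≤ n := by exact_mod_cast hn
          have h11 : (4 : ℝ) ≤ n * (4 * M + 4) := by nlinarith
          have h12 : (0 : ℝ) ≤ n * (4 * M + 4) * sqB e := by positivity
          have h13 : H ≤ n * (4 * M + 4) * H := by nlinarith
          nlinarith [mul_nonneg h9 hH0, mul_nonneg h9 hL0]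
  refine ⟨fun α => if h : SupN a0 h0 α then ((ξ ⟨α, h⟩ : 𝓞 K) : K) else 0, ?_, ?_, ?_, ?_, ?_⟩
  · intro h
    apply hξ0
    funext α
    have h3 := congrFun h α.1
    simp only [Pi.zero_apply] at h3
    rw [dif_pos α.2] at h3
    exact RingOfIntegers.coe_eq_zero_iff.1 h3
  · intro α
    show IsIntegral ℤ (if h : SupN a0 h0 α then ((ξ ⟨α, h⟩ : 𝓞 K) : K) else 0)
    split_ifs with h
    · exact RingOfIntegers.isIntegral_coe _
    · exact isIntegral_zero
  · intro α
    show house (if h : SupN a0 h0 α then ((ξ ⟨α, h⟩ : 𝓞 K) : K) else 0) ≤ _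
    split_ifs with h
    · exact hbound _
    · exact (Pool.Agent.Helper68.Ru.house_zero' K).trans (Real.exp_pos _).le
  · intro α hα
    exact dif_neg hα
  · -- the conditions
    intro l μ t hbad u
    set w : RowsN σ n k0 e T gr U := ⟨l, μ, ⟨t, hbad⟩, u⟩ with hw
    have hrow := congrFun hξ w
    have hK := congrArg (algebraMap (𝓞 K) K) hrow
    rw [Matrix.mulVec, dotProduct, map_sum] at hK
    have hK2 : ∑ y : {α : Ix σ n M 1 e // SupN a0 h0 α},
        entN D M S d r ν w y.1 * ((ξ y : 𝓞 K) : K) = 0 := by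
      refine Eq.trans (Finset.sum_congr rfl fun y _ => ?_) (hK.trans (map_zero _))
      rw [map_mul]
      rfl
    set cc : Ix σ n M 1 e → K :=
      fun α => if h : SupN a0 h0 α then ((ξ ⟨α, h⟩ : 𝓞 K) : K) else 0 with hcc
    have hK3 : ∑ α : Ix σ n M 1 e, entN D M S d r ν w α * cc α = 0 := by
      rw [← hK2]
      have h4 : ∑ y : {α : Ix σ n M 1 e // SupN a0 h0 α},
          entN D M S d r ν w y.1 * ((ξ y : 𝓞 K) : K) =
          ∑ y : {α : Ix σ n M 1 e // SupN a0 h0 α}, entN D M S d r ν w y.1 * cc y.1 := by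
        refine Finset.sum_congr rfl fun y _ => ?_
        rw [hcc]
        simp only
        rw [dif_pos y.2]
      rw [h4, ← Finset.sum_subtype (Finset.univ.filter fun α : Ix σ n M 1 e => SupN a0 h0 α)
        (fun x => by simp) (fun α => entN D M S d r ν w α * cc α)]
      symm
      refine Finset.sum_subset (Finset.filter_subset _ _) fun α _ hα => ?_
      have h5 : ¬ SupN a0 h0 α := fun h => hα (Finset.mem_filter.2 ⟨Finset.mem_univ _, h⟩)
      rw [hcc]
      simp only
      rw [dif_neg h5, mul_zero]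
    have hE : (∏ j, den K σ D (d j) M (e j)) ≠ 0 :=
      Finset.prod_ne_zero_iff.2 fun j _ => den_ne D (d j) M (e j) hD (hsl.pos j)
    refine (mul_eq_zero.1 (Eq.trans ?_ hK3)).resolve_left hE
    rw [Finset.mul_sum]
    refine Finset.sum_congr rfl fun α _ => ?_
    unfold entN
    rw [Finset.mul_sum, Finset.mul_sum, Finset.sum_mul]
    refine Finset.sum_congr rfl fun p _ => ?_
    rw [Finset.prod_mul_distrib]
    ring

end

end Pool.Agent.Helper22.TN
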